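import Pool.Agent.H839R3.Nas.Stmts

/-!
# No subset of the set of the atoms is amorphous
-/

namespace Pool.Agent.H630R3.NasD

open FirstOrder FirstOrder.Language
open Pool.Agent.Helper672.Plain (LSet Mem IsPair IsOrdPair Zermelo)
open Pool.Agent.H635Amen (ZF)
open Pool.Agent.H310Cards
open Pool.Agent.H839R3.Nas

universe u

section definability

variable {N : Type u} [LSet.Structure N]

/-- Definability with parameters in `A`. -/
def DA (A : Set N) {ι : Type} (p : (ι → N) → Prop) : Prop := A.Definable LSet {v | p v}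

variable {A : Set N} {ι : Type}

theorem DA.and {p q : (ι → N) → Prop} (hp : DA A p) (hq : DA A q) :
    DA A (fun v => p v ∧ q v) :=
  Set.Definable.inter hp hq

theorem DA.or {p q : (ι → N) → Prop} (hp : DA A p) (hq : DA A q) :
    DA A (fun v => p v ∨ q v) :=
  Set.Definable.union hp hq

theorem DA.not {p : (ι → N) → Prop} (hp : DA A p) : DA A (fun v => ¬ p v) :=
  Set.Definable.compl hp

theorem DA.imp {p q : (ι → N) → Prop} (hp : DA A p) (hq : DA A q) :
    DA A (fun v => p v → q v) := by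
  have h := DA.or (DA.not hp) hq
  refine Eq.mp (congrArg (DA A) ?_) h
  funext v
  exact propext imp_iff_not_or.symm

theorem DA.iff {p q : (ι → N) → Prop} (hp : DA A p) (hq : DA A q) :
    DA A (fun v => (p v ↔ q v)) := by
  have h := DA.and (DA.imp hp hq) (DA.imp hq hp)
  refine Eq.mp (congrArg (DA A) ?_) h
  funext v
  exact propext iff_iff_implies_and_implies.symm

theorem DA.ex {p : (ι → N) → N → Prop}
    (h : DA A (fun w : ι ⊕ Unit → N => p (fun i => w (Sum.inl i)) (w (Sum.inr ())))) :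
    DA A (fun v => ∃ x, p v x) := by
  have h1 := Set.Definable.exists_of_finite (β := Unit) h
  refine Eq.mp (congrArg (DA A) ?_) h1
  funext v
  refine propext ⟨fun ⟨a, ha⟩ => ⟨a (), ha⟩, fun ⟨x, hx⟩ => ⟨fun _ => x, hx⟩⟩

theorem DA.all {p : (ι → N) → N → Prop}
    (h : DA A (fun w : ι ⊕ Unit → N => p (fun i => w (Sum.inl i)) (w (Sum.inr ())))) :
    DA A (fun v => ∀ x, p v x) := by
  have h1 := Set.Definable.forall_of_finite (β := Unit) h
  refine Eq.mp (congrArg (DA A) ?_) h1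
  funext v
  refine propext ⟨fun h2 x => h2 fun _ => x, fun h2 a => h2 (a ())⟩

theorem DA.mem (i j : ι) : DA A (fun v : ι → N => Mem (v i) (v j)) := by
  refine Set.Definable.mono (A := ∅) ?_ (Set.empty_subset _)
  refine Set.empty_definable_iff.2 ⟨Relations.formula₂ (L := LSet)
    (Pool.Agent.Helper672.Plain.Sym.mem : LSet.Relations 2) (Term.var i) (Term.var j), ?_⟩
  ext v
  exact (Formula.realize_rel₂ (L := LSet) (v := v) (t₁ := Term.var i) (t₂ := Term.var j)
    (R := (Pool.Agent.Helper672.Plain.Sym.mem : LSet.Relations 2))).symm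

theorem DA.eq (i j : ι) : DA A (fun v : ι → N => v i = v j) := by
  refine Set.Definable.mono (A := ∅) ?_ (Set.empty_subset _)
  refine Set.empty_definable_iff.2 ⟨Term.equal (L := LSet) (Term.var i) (Term.var j), ?_⟩
  ext v
  change v i = v j ↔ Formula.Realize _ v
  rw [Formula.realize_equal]
  rfl

theorem DA.eqc (i : ι) (c : N) : DA Set.univ (fun v : ι → N => v i = c) := by
  refine ⟨Term.equal (Term.var i) (Constants.term (LSet.con (⟨c, trivial⟩ : (Set.univ : Set N)))), ?_⟩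
  ext v
  simp [Formula.realize_equal]

theorem DA.isPair (i j k : ι) : DA A (fun v : ι → N => IsPair (v i) (v j) (v k)) :=
  DA.all (DA.iff (DA.mem (Sum.inr ()) (Sum.inl i))
    (DA.or (DA.eq (Sum.inr ()) (Sum.inl j)) (DA.eq (Sum.inr ()) (Sum.inl k))))

theorem DA.isOrdPair (i j k : ι) : DA A (fun v : ι → N => IsOrdPair (v i) (v j) (v k)) :=
  DA.ex (DA.ex (DA.and (DA.isPair (Sum.inl (Sum.inr ())) (Sum.inl (Sum.inl j)) (Sum.inl (Sum.inl j)))
    (DA.and (DA.isPair (Sum.inr ()) (Sum.inl (Sum.inl j)) (Sum.inl (Sum.inl k)))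
      (DA.isPair (Sum.inl (Sum.inl i)) (Sum.inl (Sum.inr ())) (Sum.inr ())))))

end definability

section sets

variable {N : Type u} [LSet.Structure N]

theorem sep (hZ : ZF N) {p : N → Prop} (hp : DA Set.univ (fun v : Fin 1 → N => p (v 0))) (x : N) :
    ∃ y, ∀ z, Mem z y ↔ Mem z x ∧ p z :=
  hZ.separation {z | p z} hp x

theorem ordPair_ex (hZ : ZF N) (x y : N) : ∃ q, IsOrdPair q x y := by
  obtain ⟨s, hs⟩ := hZ.pairing x x
  obtain ⟨d, hd⟩ := hZ.pairing x y
  obtain ⟨q, hq⟩ := hZ.pairing s d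
  exact ⟨q, s, d, hs, hd, hq⟩

theorem isPair_unique (hZ : ZF N) {p q x y : N} (hp : IsPair p x y) (hq : IsPair q x y) : p = q :=
  hZ.ext _ _ fun z => (hp z).trans (hq z).symm

theorem ordPair_unique (hZ : ZF N) {p q x y : N} (hp : IsOrdPair p x y) (hq : IsOrdPair q x y) :
    p = q := by
  obtain ⟨s, d, h1, h2, h3⟩ := hp
  obtain ⟨s', d', h1', h2', h3'⟩ := hq
  obtain rfl := isPair_unique hZ h1 h1'
  obtain rfl := isPair_unique hZ h2 h2'
  exact isPair_unique hZ h3 h3'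

theorem ordPair_inj {q x y x' y' : N} (h : IsOrdPair q x y) (h' : IsOrdPair q x' y') :
    x = x' ∧ y = y' := by
  obtain ⟨s, d, h1, h2, h3⟩ := h
  obtain ⟨s', d', h1', h2', h3'⟩ := h'
  have hx : x = x' := by
    rcases (h3' s).1 ((h3 s).2 (Or.inl rfl)) with h | h
    · subst h
      rcases (h1' x).1 ((h1 x).2 (Or.inl rfl)) with h | h <;> exact h
    · subst h
      rcases (h1 x').1 ((h2' x').2 (Or.inl rfl)) with h | h <;> exact h.symm
  subst hx
  refine ⟨rfl, ?_⟩
  rcases (h3' d).1 ((h3 d).2 (Or.inr rfl)) with h | h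
  · subst h
    have hy : y = x := by
      rcases (h1' y).1 ((h2 y).2 (Or.inr rfl)) with h | h <;> exact h
    subst hy
    rcases (h3 d').1 ((h3' d').2 (Or.inr rfl)) with h | h
    · subst h
      rcases (h1 y').1 ((h2' y').2 (Or.inr rfl)) with h | h <;> exact h.symm
    · subst h
      rcases (h2 y').1 ((h2' y').2 (Or.inr rfl)) with h | h <;> exact h.symm
  · subst h
    rcases (h2' y).1 ((h2 y).2 (Or.inr rfl)) with h | h
    · subst h
      rcases (h2 y').1 ((h2' y').2 (Or.inr rfl)) with h | h <;> exact h.symm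
    · exact h

theorem exists_insert (hZ : ZF N) (x a : N) : ∃ s, ∀ z, Mem z s ↔ Mem z x ∨ z = a := by
  obtain ⟨t, ht⟩ := hZ.pairing a a
  obtain ⟨p, hp⟩ := hZ.pairing x t
  obtain ⟨s, hs⟩ := hZ.union p
  refine ⟨s, fun z => (hs z).trans ⟨?_, ?_⟩⟩
  · rintro ⟨y, hy, hz⟩
    rcases (hp y).1 hy with rfl | rfl
    · exact Or.inl hz
    · rcases (ht z).1 hz with h | h <;> exact Or.inr h
  · rintro (h | h)
    · exact ⟨x, (hp x).2 (Or.inl rfl), h⟩
    · exact ⟨t, (hp t).2 (Or.inr rfl), (ht z).2 (Or.inl h)⟩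

theorem not_mem_self (hZ : ZF N) (n : N) : ¬ Mem n n := by
  obtain ⟨p, hp⟩ := hZ.pairing n n
  obtain ⟨y, hy, h⟩ := hZ.foundation p ⟨n, (hp n).2 (Or.inl rfl)⟩
  have hyn : y = n := by rcases (hp y).1 hy with h | h <;> exact h
  subst hyn
  exact h y hy

theorem exists_zero (hZ : ZF N) : ∃ n : N, (∀ z, ¬ Mem z n) ∧ IsNat n := by
  obtain ⟨i, ⟨e, _, he⟩, _⟩ := hZ.infinity
  refine ⟨e, he, fun i' hi' => ?_⟩
  obtain ⟨⟨e', h1, h2⟩, _⟩ := hi'
  have h3 : e = e' := hZ.ext _ _ fun z => ⟨fun h => absurd h (he z), fun h => absurd h (h2 z)⟩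
  rw [h3]
  exact h1

theorem exists_succ (hZ : ZF N) {n : N} (hn : IsNat n) :
    ∃ s : N, (∀ z, Mem z s ↔ Mem z n ∨ z = n) ∧ IsNat s := by
  obtain ⟨s, hs⟩ := exists_insert hZ n n
  refine ⟨s, hs, fun i hi => ?_⟩
  obtain ⟨s', h1, h2⟩ := hi.2 n (hn i hi)
  have h3 : s = s' := hZ.ext _ _ fun z => (hs z).trans (h2 z).symm
  rw [h3]
  exact h1

/-- A set with finitely many elements is finite in the model. -/
theorem finite_of (hZ : ZF N) (T : Finset N) : ∀ b : N, (∀ z, Mem z b ↔ z ∈ T) → IsFinite b := by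
  classical
  induction T using Finset.induction_on with
  | empty =>
    intro b hb
    obtain ⟨n, hn, hn'⟩ := exists_zero hZ
    refine ⟨n, n, hn', ⟨⟨fun q hq => absurd hq (hn q), fun x hx => ?_⟩, ?_⟩, ?_⟩
    · simp [hb] at hx
    · rintro x x' y ⟨q, _, hq⟩
      exact absurd hq (hn q)
    · intro y hy
      exact absurd hy (hn y)
  | insert a T haT ih =>
    intro b hb
    obtain ⟨b', hb'⟩ := sep hZ (p := fun z => ¬ z = a) (DA.not (DA.eqc 0 a)) b
    have hb'T : ∀ z, Mem z b' ↔ z ∈ T := by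
      intro z
      rw [hb', hb, Finset.mem_insert]
      constructor
      · rintro ⟨h | h, h'⟩
        · exact absurd h h'
        · exact h
      · intro h
        exact ⟨Or.inr h, fun h' => haT (h' ▸ h)⟩
    obtain ⟨n, f', hn, ⟨⟨hf1, hf2⟩, hf3⟩, hf4⟩ := ih b' hb'T
    obtain ⟨s, hs, hsn⟩ := exists_succ hZ hn
    obtain ⟨q0, hq0⟩ := ordPair_ex hZ a n
    obtain ⟨f, hf⟩ := exists_insert hZ f' q0
    have happ' : ∀ x y, App f' x y → Mem x b' ∧ Mem y n := by
      rintro x y ⟨q, hq, hqf⟩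
      obtain ⟨x', y', h1, h2, h3⟩ := hf1 q hqf
      obtain ⟨rfl, rfl⟩ := ordPair_inj hq h3
      exact ⟨h1, h2⟩
    have happ : ∀ x y, App f x y ↔ App f' x y ∨ (x = a ∧ y = n) := by
      intro x y
      constructor
      · rintro ⟨q, hq, hqf⟩
        rcases (hf q).1 hqf with h | h
        · exact Or.inl ⟨q, hq, h⟩
        · subst h
          exact Or.inr (ordPair_inj hq hq0)
      · rintro (⟨q, hq, hqf⟩ | ⟨rfl, rfl⟩)
        · exact ⟨q, hq, (hf q).2 (Or.inl hqf)⟩
        · exact ⟨q0, hq0, (hf q0).2 (Or.inr rfl)⟩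
    have hab' : ¬ Mem a b' := fun h => ((hb' a).1 h).2 rfl
    have hab : Mem a b := (hb a).2 (Finset.mem_insert_self _ _)
    refine ⟨s, f, hsn, ⟨⟨?_, ?_⟩, ?_⟩, ?_⟩
    · intro q hq
      rcases (hf q).1 hq with h | h
      · obtain ⟨x, y, h1, h2, h3⟩ := hf1 q h
        exact ⟨x, y, ((hb' x).1 h1).1, (hs y).2 (Or.inl h2), h3⟩
      · subst h
        exact ⟨a, n, hab, (hs n).2 (Or.inr rfl), hq0⟩
    · intro x hx
      by_cases hxa : x = a
      · subst hxa
        refine ⟨n, (happ _ _).2 (Or.inr ⟨rfl, rfl⟩), fun y hy => ?_⟩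
        rcases (happ _ _).1 hy with h | h
        · exact absurd (happ' _ _ h).1 hab'
        · exact h.2
      · obtain ⟨y, h1, h2⟩ := hf2 x ((hb' x).2 ⟨hx, hxa⟩)
        refine ⟨y, (happ _ _).2 (Or.inl h1), fun y' hy' => ?_⟩
        rcases (happ _ _).1 hy' with h | h
        · exact h2 y' h
        · exact absurd h.1 hxa
    · intro x x' y h1 h2
      rcases (happ _ _).1 h1 with h | h <;> rcases (happ _ _).1 h2 with h' | h'
      · exact hf3 x x' y h h'
      · have h3 := (happ' _ _ h).2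
        rw [h'.2] at h3
        exact absurd h3 (not_mem_self hZ n)
      · have h3 := (happ' _ _ h').2
        rw [h.2] at h3
        exact absurd h3 (not_mem_self hZ n)
      · rw [h.1, h'.1]
    · intro y hy
      rcases (hs y).1 hy with h | h
      · obtain ⟨x, hx⟩ := hf4 y h
        exact ⟨x, (happ _ _).2 (Or.inl hx)⟩
      · exact ⟨a, (happ _ _).2 (Or.inr ⟨rfl, h⟩)⟩

end sets

/-! ### Automorphisms -/

theorem exists_aut {U : V → Prop} (hH : Homog U) (E : Submodule (ZMod 2) V) (hE : (E : Set V).Finite)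
    {x0 x : V} (h0 : x0 ∉ E) (hx : x ∉ E) (hU : ∀ h ∈ E, (U (x + h) ↔ U (x0 + h))) :
    ∃ h : V ≃+ V, (∀ v, U (h v) ↔ U v) ∧ (∀ v ∈ E, h v = v) ∧ h x0 = x := by
  obtain ⟨f, hf1, hf2⟩ := Submodule.exists_dual_map_eq_bot_of_notMem h0 inferInstance
  have hf0 : ∀ v ∈ E, f v = 0 := by
    intro v hv
    have : f v ∈ E.map f := ⟨v, hv, rfl⟩
    rw [hf2] at this
    simpa using this
  have hfx : f x0 = 1 := by
    have : ∀ c : ZMod 2, c ≠ 0 → c = 1 := by decide
    exact this _ hf1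
  let L : V →ₗ[ZMod 2] V := LinearMap.id + f.smulRight (x - x0)
  have hL : ∀ v, L v = v + f v • (x - x0) := fun v => rfl
  let A : Submodule (ZMod 2) V := E ⊔ Submodule.span (ZMod 2) {x0}
  have hA : ∀ v ∈ A, ∃ h ∈ E, v = h ∨ v = h + x0 := by
    intro v hv
    obtain ⟨h, hh, w, hw, rfl⟩ := Submodule.mem_sup.1 hv
    obtain ⟨c, rfl⟩ := Submodule.mem_span_singleton.1 hw
    have : ∀ c : ZMod 2, c = 0 ∨ c = 1 := by decide
    rcases this c with rfl | rfl
    · exact ⟨h, hh, Or.inl (by simp)⟩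
    · exact ⟨h, hh, Or.inr (by simp)⟩
  have hLE : ∀ h ∈ E, L h = h := by
    intro h hh
    rw [hL, hf0 h hh]
    simp
  have hLx : ∀ h ∈ E, L (h + x0) = h + x := by
    intro h hh
    rw [hL, map_add, hf0 h hh, hfx]
    simp
  have hAfin : (A : Set V).Finite := by
    refine (hE.union (hE.image (· + x0))).subset ?_
    intro v hv
    obtain ⟨h, hh, rfl | rfl⟩ := hA v hv
    · exact Or.inl hh
    · exact Or.inr ⟨h, hh, rfl⟩
  have hfinA : Finite A.toAddSubgroup := hAfin.to_subtype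
  let φ : A.toAddSubgroup →+ V := L.toAddMonoidHom.comp A.toAddSubgroup.subtype
  have hφ : ∀ a : A.toAddSubgroup, φ a = L a := fun a => rfl
  obtain ⟨h, h1, h2⟩ := hH A.toAddSubgroup φ hfinA (by
    rw [injective_iff_map_eq_zero]
    rintro ⟨a, ha⟩ h
    rw [hφ] at h
    obtain ⟨b, hb, rfl | rfl⟩ := hA a ha
    · rw [hLE _ hb] at h
      exact Subtype.ext h
    · rw [hLx _ hb] at h
      exfalso
      apply hx
      have : x = -b := by
        rw [eq_neg_iff_add_eq_zero, add_comm]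
        exact h
      rw [this]
      exact E.neg_mem hb) (by
    rintro ⟨a, ha⟩
    rw [hφ]
    change U (L a) ↔ U a
    obtain ⟨b, hb, rfl | rfl⟩ := hA a ha
    · rw [hLE _ hb]
    · rw [hLx _ hb, add_comm b x, add_comm b x0]
      exact hU b hb)
  have hEA : ∀ v ∈ E, v ∈ A.toAddSubgroup := fun v hv => (le_sup_left : E ≤ A) hv
  have hxA : x0 ∈ A.toAddSubgroup :=
    (le_sup_right : Submodule.span (ZMod 2) {x0} ≤ A) (Submodule.mem_span_singleton_self x0)
  refine ⟨h, h1, fun v hv => ?_, ?_⟩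
  · have := h2 ⟨v, hEA v hv⟩
    rw [hφ] at this
    rw [this]
    exact hLE v hv
  · have := h2 ⟨x0, hxA⟩
    rw [hφ] at this
    rw [this]
    have h3 := hLx 0 E.zero_mem
    simpa using h3

theorem taskD : TaskD := by
  classical
  intro U hExt hH N _ S b hb hA
  have hZ := S.zf
  obtain ⟨e, he⟩ := S.sup_ex b
  set E : Submodule (ZMod 2) V := Submodule.span (ZMod 2) (e : Set V) with hEdef
  have hEfin : (E : Set V).Finite := by
    have : Module.Finite (ZMod 2) E := Module.Finite.span_finset (ZMod 2) e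
    have : Finite E := Module.finite_of_finite (ZMod 2)
    exact Set.toFinite _
  have heE : ∀ v ∈ e, v ∈ E := fun v hv => Submodule.subset_span hv
  have hx0 : ∃ x0 : V, x0 ∉ E ∧ Mem (S.pt x0) b := by
    by_contra hcon
    push Not at hcon
    apply hA.1
    have hfin : {y | Mem y b}.Finite := by
      refine (hEfin.image S.pt).subset ?_
      intro y hy
      obtain ⟨a, rfl⟩ := (S.mem_D _).1 (hb y hy)
      refine ⟨a, ?_, rfl⟩
      by_contra ha
      exact hcon a ha hy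
    exact finite_of hZ hfin.toFinset b (by simp)
  obtain ⟨x0, hx0E, hx0b⟩ := hx0
  have hkey : ∀ x, x ∉ E → (∀ h ∈ E, (U (x + h) ↔ U (x0 + h))) → Mem (S.pt x) b := by
    intro x hx hU
    obtain ⟨h, h1, h2, h3⟩ := exists_aut hH E hEfin hx0E hx hU
    have hDZ : DZ (fun w : Fin 2 → N => Mem (w 1) (w 0)) := DA.mem (A := ∅) 1 0
    have := S.key e h ⟨h1, fun v hv => h2 v (heE v hv)⟩ (Fin 2) (fun w => Mem (w 1) (w 0)) hDZ
      ![b, S.pt x0] ![b, S.pt x] (by
        intro i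
        fin_cases i
        · exact Or.inl ⟨rfl, he⟩
        · exact Or.inr ⟨x0, rfl, by simp [h3]⟩)
    simp at this
    exact this.1 hx0b
  obtain ⟨v, hv⟩ := hEfin.exists_notMem
  have hinf : ∀ (t : Prop) (T : Finset V), ∃ x, x ∉ T ∧ Mem (S.pt x) b ∧ (U (x + v) ↔ t) := by
    intro t T
    obtain ⟨x, hx, h⟩ := hExt (hEfin.toFinset ∪ {v} ∪ T) {h | (h ∈ E ∧ U (x0 + h)) ∨ (h = v ∧ t)}
    simp only [Finset.mem_union, Set.Finite.mem_toFinset, Finset.mem_singleton, not_or] at hx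
    refine ⟨x, hx.2, hkey x hx.1.1 fun h' hh' => ?_, ?_⟩
    · rw [h h' (by simp only [Finset.mem_union, Set.Finite.mem_toFinset]; exact Or.inl (Or.inl hh'))]
      constructor
      · rintro (h | ⟨rfl, _⟩)
        · exact h.2
        · exact absurd hh' hv
      · intro h
        exact Or.inl ⟨hh', h⟩
    · rw [h v (by simp)]
      constructor
      · rintro (⟨h, _⟩ | h)
        · exact absurd h hv
        · exact h.2
      · intro h
        exact Or.inr ⟨rfl, h⟩
  let P : N → Prop := fun z => ∃ cv, cv = S.pt v ∧ ∃ cU, cU = S.Us ∧ ∃ cA, cA = S.Ad ∧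
    ∃ w, Mem w cU ∧ ∃ q, IsOrdPair q z cv ∧ ∃ r, IsOrdPair r q w ∧ Mem r cA
  have hPdef : DA Set.univ (fun w : Fin 1 → N => P (w 0)) := by
    refine DA.ex (DA.and (DA.eqc (Sum.inr ()) _) ?_)
    refine DA.ex (DA.and (DA.eqc (Sum.inr ()) _) ?_)
    refine DA.ex (DA.and (DA.eqc (Sum.inr ()) _) ?_)
    refine DA.ex (DA.and (DA.mem (Sum.inr ()) (Sum.inl (Sum.inl (Sum.inr ())))) ?_)
    refine DA.ex (DA.and (DA.isOrdPair (Sum.inr ()) (Sum.inl (Sum.inl (Sum.inl (Sum.inl (Sum.inl 0)))))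
      (Sum.inl (Sum.inl (Sum.inl (Sum.inl (Sum.inr ())))))) ?_)
    exact DA.ex (DA.and (DA.isOrdPair (Sum.inr ()) (Sum.inl (Sum.inr ()))
      (Sum.inl (Sum.inl (Sum.inr ()))))
      (DA.mem (Sum.inr ()) (Sum.inl (Sum.inl (Sum.inl (Sum.inr ()))))))
  have hP : ∀ x, P (S.pt x) ↔ U (x + v) := by
    intro x
    constructor
    · rintro ⟨cv, rfl, cU, rfl, cA, rfl, w, hw, q, hq, r, hr, hrA⟩
      obtain ⟨a, c, q', hq', hr'⟩ := (S.mem_Ad r).1 hrA
      obtain ⟨rfl, rfl⟩ := ordPair_inj hr hr'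
      obtain ⟨h1, h2⟩ := ordPair_inj hq hq'
      obtain rfl := S.inj h1
      obtain rfl := S.inj h2
      obtain ⟨a', ha', h3⟩ := (S.mem_Us _).1 hw
      rw [S.inj h3]
      exact ha'
    · intro hU
      obtain ⟨q, hq⟩ := ordPair_ex hZ (S.pt x) (S.pt v)
      obtain ⟨r, hr⟩ := ordPair_ex hZ q (S.pt (x + v))
      exact ⟨_, rfl, _, rfl, _, rfl, S.pt (x + v), (S.mem_Us _).2 ⟨_, hU, rfl⟩, q, hq, r, hr,
        (S.mem_Ad r).2 ⟨x, v, q, hq, hr⟩⟩
  obtain ⟨c, hc⟩ := sep hZ (p := P) hPdef b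
  obtain ⟨c', hc'⟩ := sep hZ (p := fun z => ¬ P z) (DA.not hPdef) b
  have hfalse : ∀ (c : N) (t : Prop), (∀ x, Mem (S.pt x) c ↔ Mem (S.pt x) b ∧ (U (x + v) ↔ t)) →
      ¬ IsFinite c := by
    intro c t hct hfin
    have h1 := S.std c hfin
    have h2 : {x | Mem (S.pt x) c}.Finite :=
      Set.Finite.preimage (f := S.pt) S.inj.injOn h1
    obtain ⟨x, hx, hxb, hxt⟩ := hinf t h2.toFinset
    rw [Set.Finite.mem_toFinset] at hx
    exact hx ((hct x).2 ⟨hxb, hxt⟩)
  rcases hA.2 c (fun x hx => ((hc x).1 hx).1) with h | h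
  · refine hfalse c True (fun x => ?_) h
    rw [hc, hP, iff_true]
  · refine hfalse c' False (fun x => ?_) (h c' fun x => ?_)
    · rw [hc', hP, iff_false]
    · rw [hc', hc]
      exact ⟨fun h => ⟨h.1, fun h' => h.2 h'.2⟩, fun h => ⟨h.1, fun h' => h.2 ⟨h.1, h'⟩⟩⟩

end Pool.Agent.H630R3.NasD
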